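import Pool.Agent.Lib.helper18.Bcast

set_option autoImplicit false

namespace Pool.Agent.Results.MP_9b093e_co.Unbounded

/-- The eccentricity `e(v) = max_u d(u, v)`. -/
noncomputable def ecc {V : Type} [Fintype V] (G : SimpleGraph V) (v : V) : ℕ :=
  Finset.univ.sup fun u => G.dist u v

/-- A broadcast: `f(v) ≤ e(v)` for every vertex `v`. -/
def IsBroadcast {V : Type} [Fintype V] (G : SimpleGraph V) (f : V → ℕ) : Prop :=
  ∀ v, f v ≤ ecc G v

/-- Every vertex `u` has `d(u, v) ≤ f(v)` for some `v` with `f(v) ≥ 1`. -/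
def IsDomBroadcast {V : Type} (G : SimpleGraph V) (f : V → ℕ) : Prop :=
  ∀ u, ∃ v, 1 ≤ f v ∧ G.dist u v ≤ f v

/-- A minimal dominating broadcast. -/
def IsMinDomBroadcast {V : Type} [Fintype V] (G : SimpleGraph V) (f : V → ℕ) : Prop :=
  IsBroadcast G f ∧ IsDomBroadcast G f ∧
    ∀ g : V → ℕ, IsBroadcast G g → (∀ v, g v ≤ f v) → (∃ v, g v < f v) → ¬ IsDomBroadcast G g

/-- The upper broadcast domination number `Γ_b(G)`. -/
noncomputable def upperBroadcast {V : Type} [Fintype V] (G : SimpleGraph V) : ℕ :=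
  sSup {n | ∃ f : V → ℕ, IsMinDomBroadcast G f ∧ ∑ v, f v = n}

/-- A dominating set. -/
def IsDomSet {V : Type} (G : SimpleGraph V) (D : Finset V) : Prop :=
  ∀ u, u ∈ D ∨ ∃ v ∈ D, G.Adj u v

/-- The upper domination number `Γ(G)`: the largest size of a minimal dominating set. -/
noncomputable def upperDom {V : Type} (G : SimpleGraph V) : ℕ :=
  sSup {n | ∃ D : Finset V, (IsDomSet G D ∧ ∀ D' ⊂ D, ¬ IsDomSet G D') ∧ D.card = n}

open H18Bc in
theorem result : ∀ C : ℕ, ∃ (V : Type) (_ : Fintype V) (G : SimpleGraph V),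
    2 ≤ Fintype.card V ∧ G.Connected ∧ 0 < upperDom G ∧
      C * upperDom G < upperBroadcast G := by
  classical
  intro C
  obtain ⟨m, hm⟩ : ∃ m, m = 2 * C + 2 := ⟨_, rfl⟩
  have h1 : 1 ≤ m := by omega
  have hU : ∀ n ∈ {n | ∃ D : Finset (Fin (m+1) × Fin (m+1)),
      (IsDomSet (Gr m) D ∧ ∀ D' ⊂ D, ¬ IsDomSet (Gr m) D') ∧ D.card = n}, n ≤ 2 * m + 2 := by
    rintro n ⟨D, ⟨hD, hmin⟩, rfl⟩
    exact dom_card D hD hmin
  refine ⟨Fin (m+1) × Fin (m+1), inferInstance, Gr m, ?_, conn h1, ?_, ?_⟩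
  · simp only [Fintype.card_prod, Fintype.card_fin]; nlinarith
  · obtain ⟨D, hD⟩ := exists_minimal_of_wellFoundedLT (IsDomSet (Gr m))
      ⟨Finset.univ, fun u => Or.inl (Finset.mem_univ u)⟩
    have hpos : 0 < D.card := by
      rcases hD.1 (0, 0) with h | ⟨v, hv, -⟩
      · exact Finset.card_pos.2 ⟨_, h⟩
      · exact Finset.card_pos.2 ⟨_, hv⟩
    refine hpos.trans_le (le_csSup ⟨_, hU⟩ ⟨D, ⟨hD.1, fun D' hD' h => ?_⟩, rfl⟩)
    exact hD'.2 (hD.2 h hD'.1)
  · have hd : upperDom (Gr m) ≤ 2 * m + 2 := csSup_le' hU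
    let f : Fin (m+1) × Fin (m+1) → ℕ := fun p => if p.1 ≠ 0 ∧ p.2 = 0 then m else 0
    have hf : IsMinDomBroadcast (Gr m) f := by
      refine ⟨fun v => ?_, fun u => ?_, fun g _ hg ⟨v, hv⟩ hdom => ?_⟩
      · obtain ⟨i, j⟩ := v
        simp only [f]
        split_ifs with h
        · obtain ⟨hi, rfl⟩ := h
          have := dist_lb h1 i i hi hi
          refine le_trans (by simpa using this)
            (Finset.le_sup (f := fun u => (Gr m).dist u (i, 0)) (Finset.mem_univ (i, Fin.last m)))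
        · exact Nat.zero_le _
      · obtain ⟨i, hi, w, hw⟩ := toTop h1 u
        refine ⟨(i, 0), by simpa [f, hi] using h1, ?_⟩
        simpa [f, hi] using (SimpleGraph.dist_le w).trans hw
      · obtain ⟨i, j⟩ := v
        have hij : i ≠ 0 ∧ j = 0 := by
          by_contra h; simp [f, h] at hv
        obtain ⟨hi, rfl⟩ := hij
        obtain ⟨⟨i', j'⟩, h2, h3⟩ := hdom (i, Fin.last m)
        have h4 := hg (i', j')
        have hij' : i' ≠ 0 ∧ j' = 0 := by
          by_contra h; simp only [f, h, if_false] at h4; omega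
        obtain ⟨hi', rfl⟩ := hij'
        have h5 := dist_lb h1 i i' hi hi'
        have e : ∀ i : Fin (m+1), i ≠ 0 → f (i, 0) = m := fun i hi => by simp [f, hi]
        rw [e i' hi'] at h4
        rw [e i hi] at hv
        split_ifs at h5 with h
        · subst h; omega
        · omega
    have hs : ∑ v, f v = m * m := by
      rw [Fintype.sum_prod_type, Fin.sum_univ_succ]
      simp [f]
    have hb : m * m ≤ upperBroadcast (Gr m) := by
      refine le_csSup ⟨∑ v, ecc (Gr m) v, ?_⟩ ⟨f, hf, hs⟩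
      rintro n ⟨g, hg, rfl⟩
      exact Finset.sum_le_sum fun v _ => hg.1 v
    have : C * upperDom (Gr m) ≤ C * (2 * m + 2) := Nat.mul_le_mul_left _ hd
    subst hm
    nlinarith

end Pool.Agent.Results.MP_9b093e_co.Unbounded
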